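import Pool.Agent.H32.SAB.Targets

/-!
# Totally isotropic subspaces, normal form of a pencil
-/

set_option autoImplicit false

open Polynomial Matrix

namespace Pool.Agent.H32.SAB

/-- the form with matrix `A` has a totally isotropic subspace of dimension `r` -/
def TI {F : Type*} [Field F] {n : ℕ} (A : Matrix (Fin n) (Fin n) F) (r : ℕ) : Prop :=
  ∃ b : Fin r → Fin n → F, LinearIndependent F b ∧ ∀ i j, b i ⬝ᵥ A *ᵥ b j = 0

/-- the sum of a hyperbolic plane and the form with matrix `B` -/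
def hyp {F : Type*} [Field F] {n : ℕ} (B : Matrix (Fin n) (Fin n) F) :
    Matrix (Fin (2 + n)) (Fin (2 + n)) F :=
  Matrix.reindex finSumFinEquiv finSumFinEquiv (Matrix.fromBlocks !![0, 1; 1, 0] 0 0 B)

/-- splitting off a hyperbolic plane -/
def T_HYP : Prop := ∀ (F : Type) [Field F], (2 : F) ≠ 0 → ∀ (n : ℕ)
  (A : Matrix (Fin n) (Fin n) F), A.IsSymm → A.det ≠ 0 → (∃ x : Fin n → F, x ≠ 0 ∧
  x ⬝ᵥ A *ᵥ x = 0) → ∃ (m : ℕ) (h : 2 + m = n) (B : Matrix (Fin m) (Fin m) F)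
  (C : Matrix (Fin n) (Fin n) F), B.IsSymm ∧ B.det ≠ 0 ∧ C.det ≠ 0 ∧
  Cᵀ * A * C = Matrix.reindex (finCongr h) (finCongr h) (hyp B)

/-- exchange: a totally isotropic subspace of the same dimension through a given vector -/
def T_EXC : Prop := ∀ (F : Type) [Field F] (n r : ℕ) (A : Matrix (Fin n) (Fin n) F),
  A.IsSymm → TI A (r + 1) → ∀ x : Fin n → F, x ≠ 0 → x ⬝ᵥ A *ᵥ x = 0 →
  ∃ b : Fin (r + 1) → Fin n → F, b 0 = x ∧ LinearIndependent F b ∧
  ∀ i j, b i ⬝ᵥ A *ᵥ b j = 0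

/-- totally isotropic subspaces and hyperbolic planes -/
def T_TIH : Prop := ∀ (F : Type) [Field F], (2 : F) ≠ 0 → ∀ (n r : ℕ)
  (B : Matrix (Fin n) (Fin n) F), B.IsSymm → (TI (hyp B) (r + 1) ↔ TI B r)

/-- equivalent matrices -/
def T_TIC : Prop := ∀ (F : Type) [Field F] (n r : ℕ) (A C : Matrix (Fin n) (Fin n) F),
  C.det ≠ 0 → (TI (Cᵀ * A * C) r ↔ TI A r)

/-- Springer's theorem for totally isotropic subspaces -/
def T_STI : Prop := ∀ (F : Type) [Field F], (2 : F) ≠ 0 → ∀ (p : F[X]) (hp : Irreducible p),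
  Odd p.natDegree → ∀ (n r : ℕ) (A : Matrix (Fin n) (Fin n) F), A.IsSymm → A.det ≠ 0 →
  (haveI : Fact (Irreducible p) := ⟨hp⟩
   TI (A.map (algebraMap F (AdjoinRoot p))) r) → TI A r

/-- Springer's theorem for totally isotropic subspaces and finite extensions of odd degree -/
def T_STL : Prop := ∀ (F L : Type) [Field F] [CharZero F] [Field L] [Algebra F L]
  [FiniteDimensional F L], Odd (Module.finrank F L) → ∀ (n r : ℕ)
  (A : Matrix (Fin n) (Fin n) F), A.IsSymm → A.det ≠ 0 →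
  TI (A.map (algebraMap F L)) r → TI A r

/-! ### The normal form -/

/-- the coefficient of `X ^ 6` modulo `P` -/
noncomputable def lam {F : Type*} [Field F] (P g : F[X]) : F := (g %ₘ P).coeff 6

/-- the matrices of the pencil -/
noncomputable def gA {F : Type*} [Field F] (P D : F[X]) (s : ℕ) : Matrix (Fin 7) (Fin 7) F :=
  Matrix.of fun i j => lam P (D * X ^ ((i : ℕ) + (j : ℕ) + s))

/-- properties of `lam` -/
def T_LAM : Prop := ∀ (F : Type) [Field F] (P : F[X]), P.Monic → P.natDegree = 7 →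
  (∀ f g : F[X], lam P (f + g) = lam P f + lam P g) ∧
  (∀ (c : F) (g : F[X]), lam P (C c * g) = c * lam P g) ∧ (∀ g : F[X], lam P (P * g) = 0) ∧
  (∀ g : F[X], g.natDegree ≤ 6 → lam P g = g.coeff 6) ∧
  (∀ h : Fin 7 → F, ∃ D : F[X], D.natDegree ≤ 6 ∧ ∀ i : Fin 7, lam P (D * X ^ (i : ℕ)) = h i) ∧
  ∀ l : F[X] →ₗ[F] F, (∀ g, l (P * g) = 0) → ∃ D : F[X], ∀ g, l g = lam P (D * g)

/-- cyclic vectors -/
def T_CYC : Prop := ∀ (F : Type) [Field F] (n : ℕ) (M : Matrix (Fin n) (Fin n) F),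
  Irreducible M.charpoly → ∀ v : Fin n → F, v ≠ 0 →
  (Matrix.of fun i j : Fin n => ((M ^ (j : ℕ)) *ᵥ v) i).det ≠ 0

/-- the normal form of a pencil of quadratic forms with irreducible discriminant -/
def T_NFM : Prop := ∀ (k : Type) [Field k] (A1 A2 : Matrix (Fin 7) (Fin 7) k), A1.IsSymm →
  A2.IsSymm → Irreducible (A1.map C - (X : k[X]) • A2.map C).det →
  (A1.map C - (X : k[X]) • A2.map C).det.natDegree = 7 →
  ∃ (P D : k[X]) (U : Matrix (Fin 7) (Fin 7) k) (c : k), P.Monic ∧ Irreducible P ∧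
    P.natDegree = 7 ∧ IsCoprime P D ∧ IsSquare (Algebra.norm k (AdjoinRoot.mk P D)) ∧
    U.det ≠ 0 ∧ c ≠ 0 ∧ c • (Uᵀ * A1 * U) = gA P D 1 ∧ c • (Uᵀ * A2 * U) = gA P D 0

/-! ### Quadratic polynomials and matrices -/

/-- the Hessian matrix of a polynomial -/
noncomputable def hes {K : Type*} [Field K] {n : ℕ} (f : MvPolynomial (Fin n) K) :
    Matrix (Fin n) (Fin n) K :=
  Matrix.of fun i j =>
    MvPolynomial.coeff 0 (MvPolynomial.pderiv i (MvPolynomial.pderiv j f))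

/-- homogeneous polynomials of degree two and their Hessian matrices -/
def T_HES : Prop := ∀ (K : Type) [Field K] (n : ℕ) (f : MvPolynomial (Fin n) K),
  f.IsHomogeneous 2 → (hes f).IsSymm ∧ ∀ (R : Type) [Field R] (φ : K →+* R) (x : Fin n → R),
  x ⬝ᵥ ((hes f).map φ) *ᵥ x = 2 * MvPolynomial.eval₂ φ x f ∧
  ∀ i, (((hes f).map φ) *ᵥ x) i = MvPolynomial.eval₂ φ x (MvPolynomial.pderiv i f)

/-- separable discriminant and smoothness -/
def T_SMO : Prop := ∀ (F : Type) [Field F] [CharZero F] (n : ℕ) (A B : Matrix (Fin n) (Fin n) F),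
  A.IsSymm → B.IsSymm → (A.map C - (X : F[X]) • B.map C).det.Separable →
  (A.map C - (X : F[X]) • B.map C).det.natDegree = n → ∀ x : Fin n → F, x ≠ 0 →
  x ⬝ᵥ A *ᵥ x = 0 → x ⬝ᵥ B *ᵥ x = 0 → LinearIndependent F ![A *ᵥ x, B *ᵥ x]

end Pool.Agent.H32.SAB
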