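import Mathlib

/-!
# Springer's theorem and the theorem of Amer and Brumer
-/

set_option autoImplicit false

open Polynomial Matrix

namespace Pool.Agent.H32.SAB

/-- the value of the quadratic form with matrix `A` -/
def qv {R : Type*} [CommRing R] {n : ℕ} (A : Matrix (Fin n) (Fin n) R) (x : Fin n → R) : R :=
  ∑ i, ∑ j, A i j * x i * x j

/-- the quadratic form with matrix `A` has a nonzero zero over the algebra `S` -/
def IsoM {R : Type*} [CommRing R] {n : ℕ} (A : Matrix (Fin n) (Fin n) R) (S : Type*)
    [CommRing S] [Algebra R S] : Prop :=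
  ∃ x : Fin n → S, x ≠ 0 ∧ qv (A.map (algebraMap R S)) x = 0

/-- the quadratic forms with matrices `A` and `B` have a common nonzero zero over `S` -/
def IsoP {R : Type*} [CommRing R] {n : ℕ} (A B : Matrix (Fin n) (Fin n) R) (S : Type*)
    [CommRing S] [Algebra R S] : Prop :=
  ∃ x : Fin n → S, x ≠ 0 ∧ qv (A.map (algebraMap R S)) x = 0 ∧
    qv (B.map (algebraMap R S)) x = 0

/-- the theorem of Springer -/
def T_SPR : Prop := ∀ (F : Type) [Field F] (n : ℕ) (A : Matrix (Fin n) (Fin n) F) (p : F[X]),
  Irreducible p → Odd p.natDegree → IsoM A (AdjoinRoot p) → IsoM A F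

/-- the theorem of Amer and Brumer -/
def T_AMB : Prop := ∀ (k : Type) [Field k], (2 : k) ≠ 0 → ∀ (n : ℕ)
  (A B : Matrix (Fin n) (Fin n) k), A.IsSymm → B.IsSymm →
  (∃ v : Fin n → k[X], v ≠ 0 ∧ qv (A.map C) v + X * qv (B.map C) v = 0) → IsoP A B k

/-- irreducible polynomials remain irreducible over the field of rational functions -/
def T_IRR : Prop := ∀ (k : Type) [Field k] (p : k[X]), Irreducible p →
  Irreducible (p.map (algebraMap k (RatFunc k)))

/-- extensions of odd degree and intersections of two quadrics -/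
def T_ODC : Prop := ∀ (k K : Type) [Field k] [CharZero k] [Field K] [Algebra k K]
  [FiniteDimensional k K], Odd (Module.finrank k K) → ∀ (n : ℕ)
  (A B : Matrix (Fin n) (Fin n) k), A.IsSymm → B.IsSymm → IsoP A B K → IsoP A B k

end Pool.Agent.H32.SAB
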